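import Pool.Agent.helper76.GJ.SpecC

/-! # `CZ`: assembly of the complex side -/

namespace Pool.Agent.GJ

open Polynomial
open Pool.Agent.FJ (VT Om chiO Jac Tup)
open Pool.Agent.HC Pool.Agent.HC.SJ Pool.Agent.SJ
open scoped TensorProduct ComplexConjugate

noncomputable section

theorem CZ (hK1 : CK1_stmt) (hP1 : CP1_stmt) (hA1 : TQA1_stmt) (hK2 : CK2_stmt) (hK5 : CK5_stmt)
    (hK6 : CK6_stmt) (hA3 : TQA3_stmt) : CZ_stmt := by
  intro hSUP hSU l _ hl D hn hInd hBal hr ι C S b X hX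
  have h1 := hK1 l hl D hn ι C
  have h2 := hSUP l hl D hInd C.tht h1 S b X hX
  obtain ⟨hlat, ⟨cm⟩⟩ := hK2 l D ι C
  have hdeg := hP1.2.2 ℚ_[l] D.V (VQ C.Lam l) C.c (2 * b) X hX.deg
  obtain ⟨m, r, c, hdec⟩ := hA1 C.W C.Lam hlat l (2 * b) _ hdeg
  have hkill := hK5 l hl D hn ι C cm X h2 (2 * b) m r c hdec
  have hsum := hdec.sum
  rw [AlgQ, hsum]
  refine Submodule.sum_mem _ fun j _ => Submodule.smul_mem _ _ (Submodule.subset_span ?_)
  refine ⟨c j, ?_, rfl⟩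
  obtain ⟨-, d2, -⟩ := hA3.2.2 C.W C.Lam (2 * b) (c j) (hdec.deg j)
  have hrot := hK6 l hl D hn hBal hr ι C cm (toR C.Lam (c j)) (hkill j)
  exact hSU C.W C.Lam hlat (C.pow hl hn cm) (fun _ => trivial) b (toR C.Lam (c j))
    ⟨d2, hrot⟩ (hkill j)

end

end Pool.Agent.GJ
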